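import Mathlib
import Pool.Agent.Steklov.Defs
import Pool.Agent.Steklov.Final

open MeasureTheory Set

namespace Pool.Agent.Results.MP_1de434_an.SteklovTriangle

open Pool.Agent.Steklov

/-- **Perimeter-normalised Steklov eigenvalue sums: the equilateral triangle never beats the disk.**

Let `T` be an (open) equilateral triangle, with vertices `A`, `B`, `C` and side length `s > 0`,
let `σ_0 ≤ σ_1 ≤ σ_2 ≤ ...` be its Steklov eigenvalues and `L` its perimeter. Then for every `n`,
`(σ_1 + ... + σ_n) L ≤ 2 π ∑_{j=1}^{n} ⌈j/2⌉`,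
the right-hand side being the value of the same quantity for the disk. -/
theorem result (A B C : ℂ) (s : ℝ) (hs : 0 < s) (hAB : dist A B = s) (hBC : dist B C = s)
    (hCA : dist C A = s) (n : ℕ) :
    (∑ j ∈ Finset.Icc 1 n, steklovEigenvalue (interior (convexHull ℝ {A, B, C})) j)
        * perimeter (interior (convexHull ℝ {A, B, C}))
      ≤ 2 * Real.pi * ∑ j ∈ Finset.Icc 1 n, (⌈(j : ℝ) / 2⌉ : ℝ) := by
  obtain ⟨a, b, ha, hT⟩ := exists_v A B C s hs hAB hBC hCA
  have h := sum_v a b ha n
  rw [← hT] at h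
  have hceil : ∀ j : ℕ, (⌈(j : ℝ) / 2⌉ : ℝ) = (((j + 1) / 2 : ℕ) : ℝ) := by
    intro j
    have : ⌈(j : ℝ) / 2⌉ = (((j + 1) / 2 : ℕ) : ℤ) := by
      rw [Int.ceil_eq_iff]
      rcases Nat.even_or_odd' j with ⟨k, hk | hk⟩
      · have e : (j + 1) / 2 = k := by omega
        rw [e, hk]
        push_cast
        constructor <;> linarith
      · have e : (j + 1) / 2 = k + 1 := by omega
        rw [e, hk]
        push_cast
        constructor <;> linarith
    rw [this]
    norm_cast
  simp only [hceil]
  exact h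

end Pool.Agent.Results.MP_1de434_an.SteklovTriangle
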